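import Pool.Agent.Q91.DPF

set_option autoImplicit false
set_option maxHeartbeats 400000

open Pool.Agent.Q91.DPX TopologicalSpace

namespace Pool.Agent.Results.MP_24ecc9_an.EndographDense

/-- Negative answer to Q1: there are a metric space `X` and a continuous `f : X → X` such that the
Zadeh extension of `f` on the normal fuzzy sets of `X` with the endograph metric has a dense
proximal relation, while the map induced by `f` on the nonempty compact subsets of `X` with the
Hausdorff metric does not. -/
theorem result : ∃ (X : Type) (_ : MetricSpace X) (f : X → X) (hf : Continuous f),
    DenseProximal (dE (X := X)) (zadehMap f hf) ∧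
    ¬ DenseProximal (fun K L : NonemptyCompacts X => dist K L) (NonemptyCompacts.map f hf) :=
  ⟨Pt, inferInstance, up, continuous_up, dense_E, not_dense_K⟩

end Pool.Agent.Results.MP_24ecc9_an.EndographDense
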